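import Pool.Agent.Helper92.ZH.Goals

/-!
# MP_a41896_nt, project T3, zero estimate: NRH, the norm polynomial of P3
-/

set_option autoImplicit false

open MvPolynomial

namespace Pool.Agent.Helper44.ZH.NRH

open WeierstrassCurve Height
open Pool.Agent.Helper29.BL Pool.Agent.Helper92.Ru Pool.Agent.Helper42.SG
open Pool.Agent.Helper68.VN Pool.Agent.Helper92.ZH
open Pool.Agent.Helper60.HC (Lo)

/-! ## Renaming -/

theorem mem_support_rename {k : Type} [Field k] {τ υ : Type} (e : τ → υ)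
    (he : Function.Injective e) (p : MvPolynomial τ k) (u : τ →₀ ℕ) :
    Finsupp.mapDomain e u ∈ (rename e p).support ↔ u ∈ p.support := by
  rw [mem_support_iff, mem_support_iff, coeff_rename_mapDomain _ he]

theorem PH_rename {k : Type} [Field k] [NumberField k] {τ υ : Type} (e : τ → υ)
    (he : Function.Injective e) (p : MvPolynomial τ k) : PH (rename e p) = PH p := by
  classical
  obtain ⟨E, hE⟩ : ∃ E : p.support → (rename e p).support, ∀ u, (E u).1 = Finsupp.mapDomain e u.1 :=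
    ⟨fun u => ⟨Finsupp.mapDomain e u.1, (mem_support_rename e he p u.1).mpr u.2⟩, fun _ => rfl⟩
  have hb : Function.Bijective E := by
    constructor
    · intro u v huv
      apply Subtype.ext
      apply Finsupp.mapDomain_injective he
      rw [← hE u, ← hE v, huv]
    · rintro ⟨v, hv⟩
      have hv' := hv
      rw [support_rename_of_injective he, Finset.mem_image] at hv'
      obtain ⟨u, hu, huv⟩ := hv'
      exact ⟨⟨u, hu⟩, Subtype.ext ((hE _).trans huv)⟩
  have h := Height.mulHeight_comp_equiv (Equiv.ofBijective E hb)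
    (fun v : (rename e p).support => coeff v.1 (rename e p))
  unfold PH
  rw [← h]
  congr 1
  funext u
  rw [Function.comp_apply, Equiv.ofBijective_apply, hE, coeff_rename_mapDomain _ he]

theorem deg_out {k : Type} [Field k] {σ τ : Type} (e : σ → τ) (p : MvPolynomial σ k) (i : τ)
    (hi : i ∉ Set.range e) : degreeOf i (rename e p) = 0 := by
  classical
  by_contra h
  have h1 : i ∈ (rename e p).vars := mem_vars_iff_degreeOf_ne_zero.2 h
  have h2 := vars_rename e p h1
  rw [Finset.mem_image] at h2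
  obtain ⟨j, _, hj⟩ := h2
  exact hi ⟨j, hj⟩

/-! ## The two blocks -/

theorem P0B_two {K : Type} [Field K] {A : Type} [CommRing A] [Algebra K A] {σ : Type} [Fintype σ]
    [DecidableEq σ] (W : σ → Affine K) (M : ℕ) (e : Fin 2 → ℕ) (c : Ix σ 2 M 1 e → K)
    (X Ψ : Fin 2 → σ → A) (X0 Ψ0 : σ → A) :
    P0B W 2 M 1 e c X Ψ X0 Ψ0 = val1 W M (e 0) (fun α => val1 W M (e 1)
      (fun β => algebraMap K A (row c α β)) (X 1) (Ψ 1) X0 Ψ0) (X 0) (Ψ 0) X0 Ψ0 := by
  classical
  unfold P0B PB val1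
  rw [Fintype.sum_prod_type]
  have h1 : ∀ α : ∀ j : Fin 2, Ax σ M (e j), (∑ β : σ → Fin 1, algebraMap K A (c (α, β)) *
      (∏ j, blkB (mapS A W) M (e j) (fun _ => false) (X j) (Ψ j) X0 Ψ0 ((α, β).1 j)) *
        ∏ i, X0 i ^ ((α, β).2 i).val) = algebraMap K A (c (α, fun _ => 0)) *
      (blkB (mapS A W) M (e 0) (fun _ => false) (X 0) (Ψ 0) X0 Ψ0 (α 0) *
        blkB (mapS A W) M (e 1) (fun _ => false) (X 1) (Ψ 1) X0 Ψ0 (α 1)) := by
    intro α
    rw [Fintype.sum_eq_single (fun _ => 0 : σ → Fin 1)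
      (fun β hβ => absurd (Subsingleton.elim _ _) hβ)]
    have h2 : ∏ i, X0 i ^ (((α, (fun _ => 0 : σ → Fin 1)) : Ix σ 2 M 1 e).2 i).val = 1 := by
      refine Finset.prod_eq_one fun i _ => ?_
      show X0 i ^ (0 : ℕ) = 1
      rw [pow_zero]
    rw [h2, mul_one, Fin.prod_univ_two]
  rw [Finset.sum_congr rfl fun α _ => h1 α]
  rw [← (piFinTwoEquiv (fun j => Ax σ M (e j))).symm.sum_comp, Fintype.sum_prod_type]
  refine Finset.sum_congr rfl fun α _ => ?_
  rw [Finset.sum_mul]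
  refine Finset.sum_congr rfl fun β _ => ?_
  have h3 : (piFinTwoEquiv (fun j => Ax σ M (e j))).symm (α, β) = two α β := by
    funext j
    fin_cases j <;> rfl
  rw [h3]
  show algebraMap K A (row c α β) * (blkB (mapS A W) M (e 0) (fun _ => false) (X 0) (Ψ 0) X0 Ψ0 α *
    blkB (mapS A W) M (e 1) (fun _ => false) (X 1) (Ψ 1) X0 Ψ0 β) = _
  ring

/-! ## Generic points -/

theorem exists_generic (K σ : Type) [Field K] : ∃ (Ω : Type) (_ : Field Ω) (_ : Algebra K Ω)
    (_ : IsAlgClosed Ω) (y : σ → Ω), AlgebraicIndependent K y := by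
  let F := FractionRing (MvPolynomial σ K)
  let Ω := AlgebraicClosure F
  have hinj : Function.Injective (IsScalarTower.toAlgHom K (MvPolynomial σ K) Ω) := by
    have h1 : Function.Injective (algebraMap (MvPolynomial σ K) F) :=
      IsFractionRing.injective (MvPolynomial σ K) F
    have h2 : Function.Injective (algebraMap F Ω) := (algebraMap F Ω).injective
    have h3 : ⇑(IsScalarTower.toAlgHom K (MvPolynomial σ K) Ω) =
        ⇑(algebraMap F Ω) ∘ ⇑(algebraMap (MvPolynomial σ K) F) := by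
      funext x
      exact IsScalarTower.algebraMap_apply (MvPolynomial σ K) F Ω x
    rw [h3]
    exact h2.comp h1
  exact ⟨Ω, inferInstance, inferInstance, inferInstance, _,
    (MvPolynomial.algebraicIndependent_X σ K).map' hinj⟩

theorem roots_poly {K σ Ω : Type} [Field K] [Field Ω] [Algebra K Ω] [DecidableEq σ]
    (y : σ → Ω) (hy : AlgebraicIndependent K y) (i' : σ) (g : MvPolynomial σ K) (hg : g ≠ 0) :
    Set.Finite {t : Ω | aeval (Function.update y i' t) g = 0} := by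
  classical
  let P : Polynomial Ω := aeval (fun i => if i = i' then Polynomial.X else Polynomial.C (y i)) g
  have hev : ∀ t, P.eval t = aeval (Function.update y i' t) g := by
    intro t
    have h1 : ((Polynomial.aeval t : Polynomial Ω →ₐ[Ω] Ω).restrictScalars K).comp
        (aeval (fun i => if i = i' then (Polynomial.X : Polynomial Ω) else Polynomial.C (y i))) =
        aeval (Function.update y i' t) := by
      apply MvPolynomial.algHom_ext
      intro i
      rw [AlgHom.comp_apply, aeval_X, aeval_X, Function.update_apply]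
      by_cases h : i = i'
      · rw [if_pos h, if_pos h]
        exact Polynomial.aeval_X t
      · rw [if_neg h, if_neg h]
        exact Polynomial.aeval_C t (y i)
    rw [← h1]
    rfl
  have hP : P ≠ 0 := by
    intro h0
    have h1 := hev (y i')
    rw [h0, Polynomial.eval_zero, Function.update_eq_self] at h1
    exact hg (hy.eq_zero_of_aeval_eq_zero g h1.symm)
  refine (P.roots.toFinset.finite_toSet).subset fun t ht => ?_
  rw [Finset.mem_coe, Multiset.mem_toFinset, Polynomial.mem_roots hP, Polynomial.IsRoot, hev]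
  exact ht

theorem sign_sq {Ω : Type} [CommRing Ω] (ε : ℤˣ) (x : Ω) : ((((ε : ℤˣ) : ℤ) : Ω) * x) ^ 2 = x ^ 2 := by
  rcases Int.units_eq_one_or ε with h | h <;> subst h <;> simp

theorem Bf_map {K : Type} [Field K] {A : Type} [CommRing A] [Algebra K A] {σ : Type}
    (W : σ → Affine K) (i : σ) (x : K) :
    Bf (mapS A W i) (algebraMap K A x) = algebraMap K A (Bf (W i) x) := by
  simp only [Bf, mapS, map_b₂, map_b₄, map_b₆, map_add, map_mul, map_pow, map_ofNat]

theorem aeval_spc {K σ A : Type} [Field K] [CommRing A] [Algebra K A] {n : ℕ} (x0 : σ → K)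
    (x : Fin n × σ → A) (R : MvPolynomial ((Fin n × σ) ⊕ σ) K) :
    aeval (Sum.elim x (cn A x0)) R = aeval x (spc x0 R) := by
  have h7 : aeval (Sum.elim x (cn A x0)) = (aeval (R := K) x).comp (spc x0) := by
    apply MvPolynomial.algHom_ext
    rintro (h | h)
    · simp [spc]
    · simp [spc, cn]
  rw [h7, AlgHom.comp_apply]

/-- The non-vanishing: either `x0` is low or the norm polynomial does not vanish. -/
theorem nonvanish (hNZF1 : NZF1) {K : Type} [Field K] [NumberField K] {σ : Type} [Fintype σ]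
    [DecidableEq σ] (W : σ → Affine K) (hW : ∀ i, (W i).IsElliptic) (M : ℕ) (e : Fin 2 → ℕ)
    (c : Ix σ 2 M 1 e → K) (hc : c ≠ 0) (i' : σ) (g2 : MvPolynomial σ K) (hg2 : g2 ≠ 0)
    (x0 ψ0 : σ → K) (hψ0 : ∀ i, ψ0 i ^ 2 = Bf (W i) (x0 i)) (low : Prop)
    (hlow : ∀ α : Ax σ M (e 0), row c α ≠ 0 → ∀ (Ω : Type) [Field Ω] [Algebra K Ω]
      [IsAlgClosed Ω] (X Ψ : σ → Ω), (∀ i, Ψ i ^ 2 = Bf (mapS Ω W i) (X i)) → aeval X g2 = 0 →
      AlgebraicIndependent K (fun i : {i : σ // i ≠ i'} => X i.1) →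
      val1 W M (e 1) (fun β => algebraMap K Ω (row c α β)) X Ψ (cn Ω x0) (cn Ω ψ0) = 0 → low)
    (R Q : MvPolynomial ((Fin 2 × σ) ⊕ σ) K)
    (hQ : ∀ (A : Type) [CommRing A] [Algebra K A] (X Ψ : Fin 2 → σ → A) (X0 Ψ0 : σ → A),
      OnB W X Ψ X0 Ψ0 → aeval (Sum.elim (fun h : Fin 2 × σ => X h.1 h.2) X0) Q =
        ∏ ε : Fin 2 × σ → ℤˣ,
          P0B W 2 M 1 e c X (fun j i => (((ε (j, i) : ℤˣ) : ℤ) : A) * Ψ j i) X0 Ψ0)
    (hR : ∀ (Ω : Type) [Field Ω] [Algebra K Ω] [IsAlgClosed Ω] (x : (Fin 2 × σ) ⊕ σ → Ω),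
      (∀ p : MvPolynomial ((Fin 2 × σ) ⊕ σ) K, p ≠ 0 →
        (∀ h, p.degreeOf h ≤
          (rename (fun i => (Sum.inl (1, i) : (Fin 2 × σ) ⊕ σ)) g2).degreeOf h) →
        p.degreeOf (Sum.inl (1, i')) = 0 → aeval x p ≠ 0) →
      (∀ t : Ω, aeval (Function.update x (Sum.inl (1, i')) t)
        (rename (fun i => (Sum.inl (1, i) : (Fin 2 × σ) ⊕ σ)) g2) = 0 →
        aeval (Function.update x (Sum.inl (1, i')) t) Q ≠ 0) → aeval x R ≠ 0) :
    low ∨ spc x0 R ≠ 0 := by
  classical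
  by_cases hl : low
  · exact Or.inl hl
  refine Or.inr ?_
  obtain ⟨Ω, _, _, _, y, hy⟩ := exists_generic K σ
  -- the points over the roots
  have hsq : ∀ (t : Ω) (i : σ), ∃ z : Ω, z ^ 2 = Bf (mapS Ω W i) (Function.update y i' t i) :=
    fun t i => IsAlgClosed.exists_pow_nat_eq _ (n := 2) (by norm_num)
  choose Φ hΦ using hsq
  have hΨ0 : ∀ i, cn Ω ψ0 i ^ 2 = Bf (mapS Ω W i) (cn Ω x0 i) := by
    intro i
    show algebraMap K Ω (ψ0 i) ^ 2 = Bf (mapS Ω W i) (algebraMap K Ω (x0 i))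
    rw [Bf_map, ← map_pow, hψ0]
  have hyind : ∀ t : Ω, AlgebraicIndependent K
      (fun i : {i : σ // i ≠ i'} => Function.update y i' t i.1) := by
    intro t
    have h1 : (fun i : {i : σ // i ≠ i'} => Function.update y i' t i.1) =
        y ∘ (Subtype.val : {i : σ // i ≠ i'} → σ) := by
      funext i
      exact Function.update_of_ne i.2 _ _
    rw [h1]
    exact hy.comp _ Subtype.val_injective
  have hfin := roots_poly y hy i' g2 hg2
  have : Finite {t : Ω | aeval (Function.update y i' t) g2 = 0} := hfin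
  let a : {t : Ω | aeval (Function.update y i' t) g2 = 0} × (σ → ℤˣ) → Ax σ M (e 0) → Ω :=
    fun k α => val1 W M (e 1) (fun β => algebraMap K Ω (row c α β))
      (Function.update y i' k.1.1) (fun i => (((k.2 i : ℤˣ) : ℤ) : Ω) * Φ k.1.1 i)
      (cn Ω x0) (cn Ω ψ0)
  have ha : ∀ k, a k ≠ 0 := by
    intro k hk
    obtain ⟨α, hα⟩ : ∃ α : Ax σ M (e 0), row c α ≠ 0 := by
      by_contra hcon
      push Not at hcon
      apply hc
      funext α
      have h1 := congrFun (hcon (α.1 0)) (α.1 1)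
      have h2 : ((two (α.1 0) (α.1 1), fun _ => 0) : Ix σ 2 M 1 e) = α := by
        refine Prod.ext ?_ ?_
        · funext j
          fin_cases j <;> rfl
        · funext j
          exact Subsingleton.elim _ _
      rw [← h2]
      exact h1
    exact hl (hlow α hα Ω (Function.update y i' k.1.1)
      (fun i => (((k.2 i : ℤˣ) : ℤ) : Ω) * Φ k.1.1 i)
      (fun i => by rw [sign_sq, hΦ]) k.1.2 (hyind k.1.1) (congrFun hk α))
  obtain ⟨X, Ψ, hXΨ, hne⟩ := hNZF1 K σ W hW M (e 0) Ω (cn Ω x0) (cn Ω ψ0) hΨ0 _ a ha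
  let x : (Fin 2 × σ) ⊕ σ → Ω :=
    Sum.elim (fun h : Fin 2 × σ => if h.1 = 0 then X h.2 else y h.2) (cn Ω x0)
  have hx : aeval x R ≠ 0 := by
    refine hR Ω x ?_ ?_
    · -- only independent coordinates
      intro p hp hdeg hdeg0
      have hinj : Function.Injective (fun i => (Sum.inl (1, i) : (Fin 2 × σ) ⊕ σ)) := by
        intro i j hij
        simpa using hij
      obtain ⟨p', rfl⟩ := exists_rename_eq_of_vars_subset_range p
        (fun i => (Sum.inl (1, i) : (Fin 2 × σ) ⊕ σ)) hinj (by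
          intro h hh
          rw [Finset.mem_coe, mem_vars_iff_degreeOf_ne_zero] at hh
          by_contra hcon
          apply hh
          have h1 := hdeg h
          rw [deg_out _ _ _ hcon] at h1
          exact Nat.le_zero.1 h1)
      have hp' : p' ≠ 0 := by
        rintro rfl
        exact hp (map_zero _)
      rw [aeval_rename]
      have h2 : x ∘ (fun i => (Sum.inl (1, i) : (Fin 2 × σ) ⊕ σ)) = y := by
        funext i
        show (if (1 : Fin 2) = 0 then X i else y i) = y i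
        rw [if_neg (by decide)]
      rw [h2]
      intro h0
      exact hp' (hy.eq_zero_of_aeval_eq_zero p' h0)
    · intro t ht
      let Xs : Fin 2 → σ → Ω := fun j => if j = 0 then X else Function.update y i' t
      let Ψs : Fin 2 → σ → Ω := fun j => if j = 0 then Ψ else Φ t
      have e0 : Xs 0 = X := if_pos rfl
      have e1 : Xs 1 = Function.update y i' t := if_neg (by decide)
      have f0 : Ψs 0 = Ψ := if_pos rfl
      have f1 : Ψs 1 = Φ t := if_neg (by decide)
      have hxu : Function.update x (Sum.inl (1, i')) t =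
          Sum.elim (fun h : Fin 2 × σ => Xs h.1 h.2) (cn Ω x0) := by
        funext h
        rcases h with ⟨j, i⟩ | i
        · by_cases hj : j = 0
          · subst hj
            rw [Function.update_of_ne (by simp)]
            show (if (0 : Fin 2) = 0 then X i else y i) = Xs 0 i
            rw [if_pos rfl, e0]
          · have hj1 : j = 1 := by omega
            subst hj1
            show Function.update x (Sum.inl (1, i')) t (Sum.inl (1, i)) = Xs 1 i
            rw [e1]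
            by_cases hi : i = i'
            · subst hi
              rw [Function.update_self, Function.update_self]
            · rw [Function.update_of_ne (by simpa using hi), Function.update_of_ne hi]
              show (if (1 : Fin 2) = 0 then X i else y i) = y i
              rw [if_neg (by decide)]
        · rw [Function.update_of_ne (by simp)]
          rfl
      have ht2 : aeval (Function.update y i' t) g2 = 0 := by
        rw [hxu, aeval_rename] at ht
        have h2 : Sum.elim (fun h : Fin 2 × σ => Xs h.1 h.2) (cn Ω x0) ∘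
            (fun i => (Sum.inl (1, i) : (Fin 2 × σ) ⊕ σ)) = Function.update y i' t := e1
        rw [h2] at ht
        exact ht
      rw [hxu, hQ Ω Xs Ψs (cn Ω x0) (cn Ω ψ0) ⟨fun j i => by
        by_cases hj : j = 0
        · subst hj
          rw [e0, f0]
          exact hXΨ i
        · have hj1 : j = 1 := by omega
          subst hj1
          rw [e1, f1]
          exact hΦ t i, hΨ0⟩]
      refine Finset.prod_ne_zero_iff.2 fun ε _ => ?_
      rw [P0B_two]
      have h3 := hne (⟨t, ht2⟩, fun i => ε (1, i)) (fun i => ε (0, i))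
      rw [e0, e1, f0, f1]
      exact h3
  intro h0
  apply hx
  show aeval (Sum.elim (fun h : Fin 2 × σ => if h.1 = 0 then X h.2 else y h.2) (cn Ω x0)) R = 0
  rw [aeval_spc, h0, map_zero]

/-- **NRH** -/
theorem t (hNQX2 : NQX2) (hRESE : RESE) (hNZF1 : NZF1) (hLOWH : LOWH) :
    Pool.Agent.Helper92.ZH.NRH := by
  classical
  intro K _ _ σ _ _ W hW M D0 C0 CA hM hC0 hCA
  obtain ⟨C1, hC1, hq⟩ := hNQX2 K σ W 2 M 1 (by norm_num) hM le_rfl
  obtain ⟨C2, hC2, hr⟩ := hRESE K ((Fin 2 × σ) ⊕ σ) D0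
  obtain ⟨D', C3, hC3, hl⟩ := hLOWH K σ W hW M D0 C0 CA hM hC0 hCA
  obtain ⟨s, hs⟩ : ∃ s : ℕ, s = nsg σ 2 := ⟨_, rfl⟩
  have hs1 : 1 ≤ s := hs ▸ Nat.one_le_pow _ _ (by norm_num)
  obtain ⟨C4, hC4⟩ : ∃ C4 : ℝ, C4 = s * (2 * M + 1) * C0 + D0 * (C1 * (2 + CA)) +
    C2 * (s * (4 * M + 1)) := ⟨_, rfl⟩
  have hC40 : 0 ≤ C4 := by
    rw [hC4]
    positivity
  refine ⟨D', 2 * D0 * (s * (4 * M + 1)) + 1, C3 + C4, by omega, by positivity, ?_⟩
  intro e c i' g2 g0 x0 ψ0 he hc hint hhouse hg2 hg0 hg0x hψ0 hind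
  have hA : 0 ≤ CA * 4 ^ e 0 := by positivity
  obtain ⟨Q, hQdeg, hQht, hQev⟩ := hq e c (CA * 4 ^ e 0) hA hint hhouse
  have hinj : Function.Injective (fun i => (Sum.inl (1, i) : (Fin 2 × σ) ⊕ σ)) := by
    intro i j hij
    simpa using hij
  have hq10 : 4 ^ e 1 ≤ 4 ^ e 0 := Nat.pow_le_pow_right (by norm_num) he
  have hq0 : 1 ≤ 4 ^ e 0 := Nat.one_le_pow _ _ (by norm_num)
  have hq1 : 1 ≤ 4 ^ e 1 := Nat.one_le_pow _ _ (by norm_num)
  have hdg : ∀ i, (rename (fun i => (Sum.inl (1, i) : (Fin 2 × σ) ⊕ σ)) g2).degreeOf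
      (Sum.inl (1, i)) = g2.degreeOf i := fun i => degreeOf_rename_of_injective hinj i
  have hdo : ∀ h, h ∉ Set.range (fun i => (Sum.inl (1, i) : (Fin 2 × σ) ⊕ σ)) →
      (rename (fun i => (Sum.inl (1, i) : (Fin 2 × σ) ⊕ σ)) g2).degreeOf h = 0 :=
    fun h hh => deg_out _ _ _ hh
  have hdle : ∀ h, (rename (fun i => (Sum.inl (1, i) : (Fin 2 × σ) ⊕ σ)) g2).degreeOf h ≤ D0 := by
    intro h
    by_cases hh : h ∈ Set.range (fun i => (Sum.inl (1, i) : (Fin 2 × σ) ⊕ σ))
    · obtain ⟨i, rfl⟩ := hh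
      rw [hdg]
      exact hg2.deg i
    · rw [hdo h hh]
      exact Nat.zero_le _
  have hg2ne : g2 ≠ 0 := by
    rintro rfl
    have h := hg2.pos
    rw [degreeOf_zero] at h
    omega
  have hQinl : ∀ j i, Q.degreeOf (Sum.inl (j, i)) ≤ s * ((2 * M + 1) * 4 ^ e j) := by
    intro j i
    rw [hs]
    exact hQdeg (Sum.inl (j, i))
  have hQinr : ∀ i, Q.degreeOf (Sum.inr i) ≤ s * (2 * 2 * M + 1) := by
    intro i
    rw [hs]
    exact hQdeg (Sum.inr i)
  have hbig : ∀ j, s * ((2 * M + 1) * 4 ^ e j) ≤ s * ((4 * M + 1) * 4 ^ e 0) := by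
    intro j
    refine Nat.mul_le_mul_left _ (Nat.mul_le_mul (by omega) ?_)
    fin_cases j
    · exact le_rfl
    · exact hq10
  obtain ⟨R, hR0, hRdeg, hRht, ⟨a, b, hab⟩, hRne⟩ := hr (Sum.inl (1, i'))
    (rename (fun i => (Sum.inl (1, i) : (Fin 2 × σ) ⊕ σ)) g2) Q (s * ((2 * M + 1) * 4 ^ e 1))
    (s * ((4 * M + 1) * 4 ^ e 0)) hdle (by rw [hdg]; exact hg2.pos) (hQinl 1 i') (hbig 1)
    (Nat.mul_pos hs1 (Nat.mul_pos (by omega) hq0)) (by
      rintro (⟨j, i⟩ | i)
      · exact (hQinl j i).trans (hbig j)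
      · refine (hQinr i).trans (Nat.mul_le_mul_left _ ?_)
        calc 2 * 2 * M + 1 = (4 * M + 1) * 1 := by ring
          _ ≤ (4 * M + 1) * 4 ^ e 0 := Nat.mul_le_mul_left _ hq0)
  rcases nonvanish hNZF1 W hW M e c hc i' g2 hg2ne x0 ψ0 hψ0
    (Lo (Finset.univ.erase i') D' (C3 * 4 ^ e 0) x0)
    (fun α hα Ω _ _ _ X Ψ h1 h2 h3 h4 => hl (e 0) (e 1) (row c α) i' g2 g0 x0 ψ0 he hα
      (fun β => hint _) (fun β => hhouse _) hg2 hg0 hg0x hψ0 (hind α hα) Ω X Ψ h1 h2 h3 h4)
    R Q hQev hRne with hlow | hspc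
  · left
    obtain ⟨g, h1, h2, h3, h4, h5⟩ := hlow
    refine ⟨g, h1, h2, h3, h4, h5.trans ?_⟩
    have : (0 : ℝ) ≤ 4 ^ e 0 := by positivity
    nlinarith
  · right
    have hRne0 : R ≠ 0 := by
      rintro rfl
      exact hspc (map_zero _)
    refine ⟨R, hspc, hR0, ?_, ?_, ?_, ?_⟩
    · rintro ⟨j, i⟩
      refine (hRdeg _).trans ?_
      by_cases hj : j = 0
      · subst hj
        rw [hdo _ (by rintro ⟨k, hk⟩; simp at hk), mul_zero, zero_add]
        refine (Nat.mul_le_mul_left D0 (hQinl 0 i)).trans ?_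
        show D0 * (s * ((2 * M + 1) * 4 ^ e 0)) ≤ (2 * D0 * (s * (4 * M + 1)) + 1) * 4 ^ e 0
        nlinarith [Nat.zero_le (D0 * s * M * 4 ^ e 0), Nat.zero_le (D0 * s * 4 ^ e 0),
          Nat.zero_le (4 ^ e 0)]
      · have hj1 : j = 1 := by omega
        subst hj1
        rw [hdg]
        refine (Nat.add_le_add (Nat.mul_le_mul_left _ (hg2.deg i))
          (Nat.mul_le_mul_left D0 (hQinl 1 i))).trans ?_
        show s * ((2 * M + 1) * 4 ^ e 1) * D0 + D0 * (s * ((2 * M + 1) * 4 ^ e 1)) ≤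
          (2 * D0 * (s * (4 * M + 1)) + 1) * 4 ^ e 1
        nlinarith [Nat.zero_le (D0 * s * M * 4 ^ e 1), Nat.zero_le (D0 * s * 4 ^ e 1),
          Nat.zero_le (4 ^ e 1)]
    · intro i
      refine (hRdeg _).trans ?_
      rw [hdo _ (by rintro ⟨k, hk⟩; simp at hk), mul_zero, zero_add]
      refine (Nat.mul_le_mul_left D0 (hQinr i)).trans ?_
      nlinarith [Nat.zero_le (D0 * s * M), Nat.zero_le (D0 * s)]
    · refine (hRht hRne0).trans ?_
      rw [PH_rename _ hinj]
      have p0 : (0 : ℝ) < 4 ^ e 0 := by positivity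
      have p1 : (0 : ℝ) < 4 ^ e 1 := by positivity
      have p10 : (4 : ℝ) ^ e 1 ≤ 4 ^ e 0 := by exact_mod_cast hq10
      have hsq : ((sqB e : ℕ) : ℝ) ≤ 2 * 4 ^ e 0 := by
        unfold sqB
        rw [Fin.sum_univ_two]
        push_cast
        linarith
      have b1 : ((s * ((2 * M + 1) * 4 ^ e 1) : ℕ) : ℝ) * Real.log (PH g2) ≤
          s * (2 * M + 1) * C0 * 4 ^ e 0 := by
        calc ((s * ((2 * M + 1) * 4 ^ e 1) : ℕ) : ℝ) * Real.log (PH g2)
            ≤ ((s * ((2 * M + 1) * 4 ^ e 1) : ℕ) : ℝ) * (C0 * (4 ^ e 0 / 4 ^ e 1)) :=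
              mul_le_mul_of_nonneg_left hg2.ht (Nat.cast_nonneg _)
          _ = s * (2 * M + 1) * C0 * 4 ^ e 0 := by
              push_cast
              field_simp
      have b2 : (D0 : ℝ) * Real.log (PH Q) ≤ D0 * (C1 * (2 + CA)) * 4 ^ e 0 := by
        calc (D0 : ℝ) * Real.log (PH Q) ≤ D0 * (C1 * ((sqB e : ℕ) + CA * 4 ^ e 0)) :=
              mul_le_mul_of_nonneg_left hQht (Nat.cast_nonneg _)
          _ ≤ D0 * (C1 * (2 * 4 ^ e 0 + CA * 4 ^ e 0)) := by gcongr
          _ = _ := by ring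
      have b3 : C2 * ((s * ((4 * M + 1) * 4 ^ e 0) : ℕ) : ℝ) = C2 * (s * (4 * M + 1)) * 4 ^ e 0 := by
        push_cast
        ring
      rw [b3]
      have hC3' : 0 ≤ C3 * (4 : ℝ) ^ e 0 := by positivity
      calc _ ≤ s * (2 * M + 1) * C0 * 4 ^ e 0 + D0 * (C1 * (2 + CA)) * 4 ^ e 0 +
            C2 * (s * (4 * M + 1)) * 4 ^ e 0 := by linarith
        _ = C4 * 4 ^ e 0 := by rw [hC4]; ring
        _ ≤ (C3 + C4) * 4 ^ e 0 := by linarith
    · intro A _ _ X Ψ hon hX
      refine ⟨(∏ ε ∈ (Finset.univ : Finset (Fin 2 × σ → ℤˣ)).erase 1,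
        P0B W 2 M 1 e c X (fun j i => (((ε (j, i) : ℤˣ) : ℤ) : A) * Ψ j i) (cn A x0) (cn A ψ0)) *
          aeval (Sum.elim (fun h : Fin 2 × σ => X h.1 h.2) (cn A x0)) b, ?_⟩
      have h1 : aeval (Sum.elim (fun h : Fin 2 × σ => X h.1 h.2) (cn A x0))
          (rename (fun i => (Sum.inl (1, i) : (Fin 2 × σ) ⊕ σ)) g2) = 0 := by
        rw [aeval_rename]
        exact hX
      rw [hab, map_add, map_mul, map_mul, h1, mul_zero, zero_add, hQev A X Ψ _ _ hon,
        ← Finset.mul_prod_erase Finset.univ _ (Finset.mem_univ 1)]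
      have h2 : (fun j i => ((((1 : Fin 2 × σ → ℤˣ) (j, i) : ℤˣ) : ℤ) : A) * Ψ j i) = Ψ := by
        funext j i
        simp
      rw [h2]
      ring

end Pool.Agent.Helper44.ZH.NRH
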